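import Pool.Agent.Helper812_WR.Inv

/-!
# MP_855f4c_ag: the monodromy-weight conjecture, the local invariant cycle property, and the vanishing
of the local Galois cohomology of `H^(2m+1)(m+1)`
-/

set_option autoImplicit false

open Module

universe u v

namespace Pool.Agent.Results.MP_855f4c_ag.LocalGaloisCohomology

open Pool.Agent.Y143 Pool.Agent.Helper812_WR

/-- **The monodromy-weight conjecture is equivalent to the local invariant cycle property, and to the
vanishing of the local Galois cohomology `H^1(K', H^(2m+1)(X)(m+1))`.**

Let `O` be a henselian discrete valuation ring with fraction field `K` and finite residue field, with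
`q` elements, and let `𝒳` be a class of projective strictly semistable schemes over `O` (`𝒳 n`
consists of those of relative dimension `n`), for example the class of all of them. Assume that `𝒳`
is closed under hypersurface sections and under products with a Tate elliptic curve
(`IsClosedClass`; this is known for the class of all projective strictly semistable schemes). The
schemes `X` enter through the cohomology of the strata of the special fibre and of the geometric
generic fibre, with the weight spectral sequence (`Degeneration`); `H^i(X)` is the cohomology of the
geometric generic fibre, and `HasMonodromyRelation` is the relation `N Φ = q Φ N`.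

1. The following are equivalent: all `H^k(X)`, for `X` in the class, are mw pure; the classes in
   `H^k(X)` which are invariant under inertia have weight `≤ k`, for all `X` in the class and all `k`
   (local invariant cycle property); the same only for the middle degree `k = n`.
2. Suppose moreover that every Frobenius eigenvalue can be turned into a power of `q` times a root
   of unity by taking the product with a smooth projective scheme (`HasTwists`; for the class of all
   projective strictly semistable schemes this follows from the theorem of Honda and Tate). Then the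
   following are equivalent: all `H^k(X)`, for `X` in the class, are mw pure;
   `H^0(K', H^i(X)(c)) = 0` for all `X` in the class, all finite extensions `K'` of `K` and all
   `i < 2 c`; `H^0(K', H^(2m+1)(X)(m+1)) = 0` for all `X` in the class of relative dimension
   `2 m + 1` and all finite extensions `K'` of `K`; `H^1(K', H^(2m+1)(X)(m+1)) = 0` for the same `X`
   and `K'`. -/
theorem result {Ω : Type u} [Field Ω] [CharZero Ω] [IsAlgClosed Ω] {Γ : Type} {q : ℕ} (hq : 1 < q)
    (𝒳 : ∀ n, Set (Degeneration.{u, v} Ω Γ n q)) (h𝒳 : IsClosedClass 𝒳)
    (hN : HasMonodromyRelation 𝒳) :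
    [∀ n, ∀ X ∈ 𝒳 n, IsPure X.toSemistableModel,
      ∀ n, ∀ X ∈ 𝒳 n, ∀ k, InvariantCycles X.toSemistableModel k,
      ∀ n, ∀ X ∈ 𝒳 n, InvariantCycles X.toSemistableModel n].TFAE ∧
    (HasTwists 𝒳 →
      [∀ n, ∀ X ∈ 𝒳 n, IsPure X.toSemistableModel,
        ∀ n, ∀ X ∈ 𝒳 n, ∀ i c, i < 2 * c → NoInvariantsIn X.toSemistableModel i c,
        ∀ m, ∀ X ∈ 𝒳 (2 * m + 1), NoInvariantsIn X.toSemistableModel (2 * m + 1) (m + 1),
        ∀ m, ∀ X ∈ 𝒳 (2 * m + 1), NoLocalCohomologyIn X.toSemistableModel (2 * m + 1) m].TFAE) := by
  constructor
  · tfae_have 1 → 2 := fun h n X hX k => inv_of_pure X.toSemistableModel hq (h n X hX k)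
    tfae_have 2 → 3 := fun h n X hX => h n X hX n
    tfae_have 3 → 1 := fun h n X hX => pure_of_injAt h𝒳 (fun m _ X hX =>
      injAt_of_inv X.toSemistableModel hq (hN m X hX m) (h m X hX)) X hX
    tfae_finish
  · intro hT
    tfae_have 1 → 2 := fun h n X hX i c hic =>
      noInv_of_pure X.toSemistableModel hq hic (h n X hX i)
    tfae_have 2 → 3 := fun h m X hX => h _ X hX (2 * m + 1) (m + 1) (by omega)
    tfae_have 3 → 1 := fun h n X hX => pure_of_injAt h𝒳 (fun m _ X hX =>
      injAt_of_noInv hq hN hT h m X hX) X hX
    tfae_have 1 → 4 := fun h m X hX =>
      ⟨noInv_of_pure X.toSemistableModel hq (by omega) (h _ X hX (2 * m + 1)),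
        noCoinv_of_pure X.toSemistableModel hq (by omega) (hN _ X hX (2 * m + 1))
          (h _ X hX (2 * m + 1))⟩
    tfae_have 4 → 3 := fun h m X hX => (h m X hX).1
    tfae_finish

end Pool.Agent.Results.MP_855f4c_ag.LocalGaloisCohomology
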