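import Pool.Agent.Helper812_WR.Final

/-!
# MP_855f4c_ag: reduction of the monodromy-weight conjecture to Tate classes on the components of the
special fibre
-/

set_option autoImplicit false

open Module

universe u v

namespace Pool.Agent.Results.MP_855f4c_ag.TateClassCriterion

open Pool.Agent.Y143 Pool.Agent.Helper812_WR

/-- **Reduction of the monodromy-weight conjecture to the double locus, and to Tate classes.**

Let `O` be a henselian discrete valuation ring with finite residue field, with `q` elements, and let
`𝒳` be a class of projective strictly semistable schemes over `O` (`𝒳 n` consists of those of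
relative dimension `n`), for example the class of all of them. Assume that `𝒳` is closed under
hypersurface sections and under products with a Tate elliptic curve (`IsClosedClass`; this is known
for the class of all projective strictly semistable schemes: a hypersurface of large degree can be
chosen transversal to all the strata, and the product can be resolved). For `X` in the class,
`Y^(m)` denotes the disjoint union of the intersections of `m` different components of the special
fibre. The schemes `X` enter through the cohomology of the strata of the special fibre and of the
geometric generic fibre and the weight spectral sequence (`Degeneration`).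

1. The cohomology of the geometric generic fibre is mw pure, in all degrees and for all `X` in the
   class, if and only if the double locus condition holds for all `X` in the class: a class
   `y ∈ H^(n-1)(Y^(1))` with `gys (res y) = 0` has a restriction `res y ∈ H^(n-1)(Y^(2))` which is a
   coboundary. This condition only concerns the restriction to the middle cohomology of the double
   locus `Y^(2)`.
2. More precisely, if the double locus condition holds in all relative dimensions `< 2 n`, then
   the cohomology of the `X` in the class of relative dimension `n` is mw pure.
3. Suppose moreover that every Frobenius eigenvalue can be turned into a power of `q` times a root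
   of unity by taking the product with a smooth projective scheme (`HasTwists`; for the class of all
   projective strictly semistable schemes this follows from the theorem of Honda and Tate). Then mw
   purity for all `X` in the class is also equivalent to the double locus condition for primitive
   Tate classes `y ∈ H^(2m)(Y^(1))`, for the `X` in the class of odd relative dimension `2 m + 1`;
   and to the corresponding statement for families of primitive Tate classes in the middle
   cohomology of the strata `Y^(2), Y^(4), ...`. -/
theorem result {Ω : Type u} [Field Ω] [CharZero Ω] [IsAlgClosed Ω] {Γ : Type} {q : ℕ} (hq : 1 < q)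
    (𝒳 : ∀ n, Set (Degeneration.{u, v} Ω Γ n q)) (h𝒳 : IsClosedClass 𝒳) :
    ((∀ n, ∀ X ∈ 𝒳 n, IsPure X.toSemistableModel) ↔
      ∀ n, ∀ X ∈ 𝒳 n, DoubleLocusCondition X.toSpecialFibre) ∧
    (∀ n, (∀ m < 2 * n, ∀ X ∈ 𝒳 m, DoubleLocusCondition X.toSpecialFibre) →
      ∀ X ∈ 𝒳 n, IsPure X.toSemistableModel) ∧
    (HasTwists 𝒳 →
      ((∀ n, ∀ X ∈ 𝒳 n, IsPure X.toSemistableModel) ↔
        ∀ n, ∀ X ∈ 𝒳 n, TateClassCondition X.toSpecialFibre) ∧
      ((∀ n, ∀ X ∈ 𝒳 n, IsPure X.toSemistableModel) ↔
        ∀ n, ∀ X ∈ 𝒳 n, PrimitiveTateCondition X.toSpecialFibre)) := by
  refine ⟨⟨fun h n X hX => cond_of_pure hq _ (h n X hX), fun h n X hX =>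
    pure_of_cond h𝒳 (fun m _ => h m) X hX⟩, fun n h X hX => pure_of_cond h𝒳 h X hX, fun hT => ?_⟩
  refine ⟨⟨fun h n X hX => tate_of_cond _ (cond_of_pure hq _ (h n X hX)), fun h n X hX =>
    pure_of_prim h𝒳 hT (fun m X hX => prim_of_tate _ (h m X hX)) X hX⟩,
    ⟨fun h n X hX => prim_of_tate _ (tate_of_cond _ (cond_of_pure hq _ (h n X hX))),
      fun h n X hX => pure_of_prim h𝒳 hT h X hX⟩⟩

end Pool.Agent.Results.MP_855f4c_ag.TateClassCriterion
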