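import Pool.Agent.Helper812_WM.Main

/-!
# MP_855f4c_ag: mw purity for threefolds whose differential forms of degree three degenerate
-/

set_option autoImplicit false

open Module

universe u v

namespace Pool.Agent.Results.MP_855f4c_ag.ThreefoldsWithDegenerateForms

open Pool.Agent.Y143 Pool.Agent.X302.MW Pool.Agent.Helper812_WM

/-- **The monodromy-weight conjecture for threefolds whose differential forms of degree three
degenerate**, for example for Calabi-Yau threefolds with `N^2 ≠ 0`. Let `X_K` be a smooth projective
threefold over a finite extension `K` of `ℚ_p`, which has a projective strictly semistable model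
over the ring of integers, with residue field with `q` elements, and let `h = dim H^3(X_K, O)`.
Suppose that the irreducible components of the special fibre satisfy the Tate conjecture for
divisors, that the transcendental part of `H^2` is the same in the two theories below (for example
`H^2(X_K, O) = 0`), and that

* `h = 1` and `N^2 ≠ 0` on `H^3`, or
* the parts of weight `0` and `1` of `H^3` exhaust `h`: `h = dim gr_0 + (1/2) dim gr_1` (this
  includes the case `h = 0`), or
* more generally, some part of `H^3` without repeated transcendental eigenvalues of weight two
  exhausts `h` (`IsExhausted`).

Then `H^k` of the geometric generic fibre is mw pure of weight `k`, for all `k`.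

Here `X` is the `ℓ`-adic theory (cohomology of the strata of the special fibre and of the geometric
generic fibre, and weight spectral sequence of Rapoport and Zink) and `X'` is the `p`-adic theory
(crystalline cohomology of the strata, Hyodo-Kato cohomology, weight spectral sequence of Mokrane),
with coefficients in algebraically closed fields `Ω` and `Ω'`, and `R` is the valuation ring of
`Ω'`. The hypotheses are the following.

* `hT`: the Tate conjecture for divisors on the components.
* `hC` (known, Deligne, Katz-Messing and Weil): the Frobenius eigenvalues on the strata are
  algebraic integers, the Frobenius has the same rational characteristic polynomial on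
  `H^2(Y^(1))`, and on `H^2(Y^(2))`, in the two theories, and the form on `H^1` of the triple curves
  is nondegenerate on the image of `H^1` of the double surfaces.
* `h2`: the transcendental eigenvalues on the `ℓ`-adic cohomology `H^2` of the generic fibre have at
  most the multiplicities of their conjugates on the Hyodo-Kato cohomology; if `H^2(X_K, O) = 0`,
  then there are no such eigenvalues, because `H^2` is spanned by classes of divisors.
* `hNH` (known, the filtered module `H^3` is weakly admissible): on a subspace `U` of the Hyodo-Kato
  cohomology `H^3` which is stable under the Frobenius and under `N`, the sum of the slopes is at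
  least `dim U - h`. -/
theorem result {Ω : Type u} [Field Ω] [CharZero Ω] [IsAlgClosed Ω] {Γ : Type}
    {Ω' : Type u} [Field Ω'] [CharZero Ω'] [IsAlgClosed Ω'] {Γ' : Type} {q : ℕ}
    (hq : IsPrimePow q)
    (X : Degeneration.{u, v} Ω Γ 3 q) (A : DivisorClasses X.toSpecialFibre) (hT : A.TateConj 0)
    (X' : SemistableModel.{u, v} Ω' Γ' 3 q)
    (hC : IsComparable X.toSpecialFibre X'.toSpecialFibre)
    (h2 : SameTranscendental X.toSemistableModel X')
    (R : ValuationSubring Ω') (hR : ((q : Ω'))⁻¹ ∉ R) (h : ℕ) (hNH : NewtonHodge X' R 3 h)
    (hE : HasDegenerateForms X' R h) (k : ℕ) :
    IsMWPure q k (X.actV k X.frob) (X.N k) := by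
  have hE' : IsExhausted X' R h := by
    rcases hE with (⟨h1, hN⟩ | hW) | hE
    · subst h1
      exact exhausted_of_W X' hq.one_lt hC.integral' R hC.weil (by
        have := W_of_N X' hC.weil hN
        omega)
    · exact exhausted_of_W X' hq.one_lt hC.integral' R hC.weil hW
    · exact hE
  exact mw_three' X rfl hC.integral A hT (fun α hα hm z hz => surj_of_exhausted
    X.toSemistableModel X' hq hC.integral hC.integral' hC.same0 hC.same1 h2 R hR hNH hE' α hα hm
    z hz) k

end Pool.Agent.Results.MP_855f4c_ag.ThreefoldsWithDegenerateForms
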